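import Mathlib

/-! (S), dimension `d`: covering radius and dual minimum of lattices with an obtuse superbase. -/

set_option autoImplicit false

namespace Pool.Agent.Helper28.Sym

open Matrix Finset

/-- the real vector of an integer vector -/
def toR {d : ℕ} (z : Fin d → ℤ) : Fin d → ℝ := fun i => (z i : ℝ)

/-- `f` is a superbase of `ℤ^d` with the integer potentials `g`. -/
def Superb {d : ℕ} (f g : Fin (d + 1) → Fin d → ℤ) : Prop :=
  ∑ l, f l = 0 ∧
    ∀ i j l, (g i - g j) ⬝ᵥ f l = (if i = l then 1 else 0) - (if j = l then 1 else 0)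

/-- indicator of a finite set -/
def ind {n : ℕ} (S : Finset (Fin n)) (i : Fin n) : ℝ := if i ∈ S then 1 else 0

/-- Layer cake: a linear functional is below the cut function if it is so on indicators. -/
theorem layer {n : ℕ} (l : Fin n → ℝ) (p : Fin n → Fin n → ℝ)
    (h : ∀ S : Finset (Fin n), ∑ i, l i * ind S i ≤ ∑ i, ∑ j, p i j * |ind S i - ind S j|) :
    ∀ (N : ℕ) (x : Fin n → ℝ), (∀ i, 0 ≤ x i) → (univ.filter (fun i => x i ≠ 0)).card ≤ N →
      ∑ i, l i * x i ≤ ∑ i, ∑ j, p i j * |x i - x j| := by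
  intro N
  induction N with
  | zero =>
    intro x hx hc
    have h0 : ∀ i, x i = 0 := by
      intro i
      by_contra hi
      have hm : i ∈ univ.filter (fun i => x i ≠ 0) := by simp [hi]
      have := Finset.card_pos.mpr ⟨i, hm⟩
      omega
    simp [h0]
  | succ N ih =>
    intro x hx hc
    by_cases hS : (univ.filter (fun i => x i ≠ 0)).Nonempty
    · obtain ⟨k, hk, hmin⟩ := Finset.exists_min_image _ x hS
      generalize hSd : univ.filter (fun i => x i ≠ 0) = S at hk hmin hc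
      have hmem : ∀ i, i ∈ S ↔ x i ≠ 0 := by
        intro i; rw [← hSd]; simp
      have hμ : 0 < x k := lt_of_le_of_ne (hx k) (Ne.symm ((hmem k).1 hk))
      have hx0 : ∀ i, 0 ≤ x i - x k * ind S i := by
        intro i
        unfold ind
        by_cases hi : i ∈ S
        · have := hmin i hi
          simp [hi]; exact this
        · simp [hi]; exact hx i
      have hcard : (univ.filter (fun i => x i - x k * ind S i ≠ 0)).card ≤ N := by
        have hss : univ.filter (fun i => x i - x k * ind S i ≠ 0) ⊆ S.erase k := by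
          intro i hi
          rw [Finset.mem_filter] at hi
          rw [Finset.mem_erase]
          refine ⟨?_, ?_⟩
          · rintro rfl
            apply hi.2
            unfold ind
            simp [hk]
          · rw [hmem]
            intro h0
            apply hi.2
            have : i ∉ S := by rw [hmem]; simp [h0]
            unfold ind
            simp [this, h0]
        have h1 := Finset.card_le_card hss
        rw [Finset.card_erase_of_mem hk] at h1
        omega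
      have h1 := ih (fun i => x i - x k * ind S i) hx0 hcard
      have h2 := h S
      have e1 : ∑ i, l i * x i = x k * ∑ i, l i * ind S i + ∑ i, l i * (x i - x k * ind S i) := by
        rw [Finset.mul_sum, ← Finset.sum_add_distrib]
        refine Finset.sum_congr rfl (fun i _ => ?_)
        ring
      have e2 : ∀ i j, |x i - x j| = x k * |ind S i - ind S j| +
          |(x i - x k * ind S i) - (x j - x k * ind S j)| := by
        intro i j
        unfold ind
        by_cases hi : i ∈ S <;> by_cases hj : j ∈ S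
        · simp [hi, hj]
        · have hj0 : x j = 0 := by
            by_contra hne
            exact hj ((hmem j).2 hne)
          have h3 := hmin i hi
          simp only [hi, hj, if_true, if_false, hj0]
          rw [abs_of_nonneg (by linarith : (0:ℝ) ≤ x i - 0), abs_of_nonneg (by norm_num : (0:ℝ) ≤ 1 - 0),
            abs_of_nonneg (by linarith : (0:ℝ) ≤ x i - x k * 1 - (0 - x k * 0))]
          ring
        · have hi0 : x i = 0 := by
            by_contra hne
            exact hi ((hmem i).2 hne)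
          have h3 := hmin j hj
          simp only [hi, hj, if_true, if_false, hi0]
          rw [abs_of_nonpos (by linarith : (0:ℝ) - x j ≤ 0), abs_of_nonpos (by norm_num : (0:ℝ) - 1 ≤ 0),
            abs_of_nonpos (by linarith : (0:ℝ) - x k * 0 - (x j - x k * 1) ≤ 0)]
          ring
        · simp [hi, hj]
      have e3 : ∑ i, ∑ j, p i j * |x i - x j| = x k * ∑ i, ∑ j, p i j * |ind S i - ind S j| +
          ∑ i, ∑ j, p i j * |(x i - x k * ind S i) - (x j - x k * ind S j)| := by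
        rw [Finset.mul_sum, ← Finset.sum_add_distrib]
        refine Finset.sum_congr rfl (fun i _ => ?_)
        rw [Finset.mul_sum, ← Finset.sum_add_distrib]
        refine Finset.sum_congr rfl (fun j _ => ?_)
        rw [e2 i j]
        ring
      rw [e1, e3]
      have h4 := mul_le_mul_of_nonneg_left h2 hμ.le
      linarith
    · have h0 : ∀ i, x i = 0 := by
        intro i
        by_contra hi
        exact hS ⟨i, by simp [hi]⟩
      simp [h0]

/-- Layer cake for arbitrary reals, when the functional kills constants. -/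
theorem layer' {n : ℕ} (l : Fin n → ℝ) (p : Fin n → Fin n → ℝ) (hl : ∑ i, l i = 0)
    (h : ∀ S : Finset (Fin n), ∑ i, l i * ind S i ≤ ∑ i, ∑ j, p i j * |ind S i - ind S j|)
    (x : Fin n → ℝ) : ∑ i, l i * x i ≤ ∑ i, ∑ j, p i j * |x i - x j| := by
  have h1 := layer l p h _ (fun i => x i + ∑ j, |x j|) (by
    intro i
    have h2 : |x i| ≤ ∑ j, |x j| := Finset.single_le_sum (f := fun j => |x j|)
      (fun j _ => abs_nonneg _) (Finset.mem_univ i)
    have h3 := neg_abs_le (x i)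
    show 0 ≤ x i + ∑ j, |x j|
    linarith) le_rfl
  have h2 : ∑ i, l i * (x i + ∑ j, |x j|) = ∑ i, l i * x i := by
    have : ∀ i, l i * (x i + ∑ j, |x j|) = l i * x i + l i * ∑ j, |x j| := fun i => by ring
    rw [Finset.sum_congr rfl (fun i _ => this i), Finset.sum_add_distrib, ← Finset.sum_mul, hl]
    ring
  have h3 : ∑ i, ∑ j, p i j * |(x i + ∑ j, |x j|) - (x j + ∑ j, |x j|)| =
      ∑ i, ∑ j, p i j * |x i - x j| := by
    refine Finset.sum_congr rfl (fun i _ => Finset.sum_congr rfl (fun j _ => ?_))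
    congr 2
    ring
  calc ∑ i, l i * x i = ∑ i, l i * (x i + ∑ j, |x j|) := h2.symm
    _ ≤ _ := h1
    _ = _ := h3

/-- The Laplacian identity: if `q` is symmetric with zero row sums, `∑ q_ij x_i y_j = -½ ∑ q_ij (x_i - x_j)(y_i - y_j)`. -/
theorem laplace {n : ℕ} (q : Fin n → Fin n → ℝ) (hr : ∀ i, ∑ j, q i j = 0) (hs : ∀ i j, q i j = q j i)
    (x y : Fin n → ℝ) :
    ∑ i, ∑ j, q i j * (x i * y j) = ∑ i, ∑ j, (-(q i j) / 2) * ((x i - x j) * (y i - y j)) := by
  have e : ∀ i j, (-(q i j) / 2) * ((x i - x j) * (y i - y j)) =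
      (-(1/2) * (x i * y i)) * q i j + (-(1/2) * (x j * y j)) * q i j + (1/2) * (q i j * (x i * y j)) +
        (1/2) * (q i j * (x j * y i)) := by
    intro i j; ring
  have h1 : ∑ i, ∑ j, (-(1/2) * (x i * y i)) * q i j = 0 := by
    refine Finset.sum_eq_zero (fun i _ => ?_)
    rw [← Finset.mul_sum, hr i, mul_zero]
  have h2 : ∑ i, ∑ j, (-(1/2) * (x j * y j)) * q i j = 0 := by
    rw [Finset.sum_comm]
    refine Finset.sum_eq_zero (fun j _ => ?_)
    rw [← Finset.mul_sum, Finset.sum_congr rfl (fun i _ => hs i j), hr j, mul_zero]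
  have h4 : ∑ i, ∑ j, q i j * (x j * y i) = ∑ i, ∑ j, q i j * (x i * y j) := by
    rw [Finset.sum_comm]
    refine Finset.sum_congr rfl (fun i _ => Finset.sum_congr rfl (fun j _ => ?_))
    rw [hs j i]
  have h3 : ∑ i, ∑ j, (-(q i j) / 2) * ((x i - x j) * (y i - y j)) =
      ∑ i, ∑ j, (-(1/2) * (x i * y i)) * q i j + ∑ i, ∑ j, (-(1/2) * (x j * y j)) * q i j +
      (1/2) * ∑ i, ∑ j, q i j * (x i * y j) + (1/2) * ∑ i, ∑ j, q i j * (x j * y i) := by
    simp only [Finset.mul_sum, ← Finset.sum_add_distrib]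
    refine Finset.sum_congr rfl (fun i _ => Finset.sum_congr rfl (fun j _ => ?_))
    rw [e i j]
  rw [h3, h1, h2, h4]
  ring

/-- Every vector is a combination of a superbase, with the coefficients given by the potentials. -/
theorem decomp {d : ℕ} (f g : Fin (d + 1) → Fin d → ℤ) (hs : Superb f g) (v : Fin d → ℝ) :
    v = ∑ l, ((toR (g l) - toR (g 0)) ⬝ᵥ v) • toR (f l) := by
  let Γ : Matrix (Fin d) (Fin d) ℝ := Matrix.of (fun l => toR (g l.succ) - toR (g 0))
  let F : Matrix (Fin d) (Fin d) ℝ := Matrix.of (fun a l => toR (f l.succ) a)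
  have hdot : ∀ i j l, (toR (g i) - toR (g j)) ⬝ᵥ toR (f l) =
      (if i = l then (1:ℝ) else 0) - (if j = l then 1 else 0) := by
    intro i j l
    have h := hs.2 i j l
    have h' : (((g i - g j) ⬝ᵥ f l : ℤ) : ℝ) =
        (((if i = l then (1:ℤ) else 0) - (if j = l then 1 else 0) : ℤ) : ℝ) := by rw [h]
    have h1 : (((g i - g j) ⬝ᵥ f l : ℤ) : ℝ) = (toR (g i) - toR (g j)) ⬝ᵥ toR (f l) := by
      simp only [dotProduct, toR, Pi.sub_apply]
      push_cast
      rfl
    rw [← h1, h']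
    push_cast
    rfl
  have h1 : Γ * F = 1 := by
    ext l m
    have h2 := hdot l.succ 0 m.succ
    have h3 : (Γ * F) l m = (toR (g l.succ) - toR (g 0)) ⬝ᵥ toR (f m.succ) := rfl
    rw [h3, h2, Matrix.one_apply]
    by_cases hlm : l = m
    · subst hlm
      simp
      intro h; exact absurd h.symm (Fin.succ_ne_zero _)
    · have : l.succ ≠ m.succ := fun h => hlm (Fin.succ_injective _ h)
      simp [hlm]
      intro h; exact absurd h.symm (Fin.succ_ne_zero _)
  have h2 : F * Γ = 1 := mul_eq_one_comm.mp h1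
  have h3 : F *ᵥ (Γ *ᵥ v) = v := by
    rw [Matrix.mulVec_mulVec, h2, Matrix.one_mulVec]
  rw [Fin.sum_univ_succ]
  have h0 : ((toR (g 0) - toR (g 0)) ⬝ᵥ v) • toR (f 0) = 0 := by
    rw [sub_self, zero_dotProduct, zero_smul]
  rw [h0, zero_add]
  conv_lhs => rw [← h3]
  ext a
  rw [Finset.sum_apply]
  show ∑ l, F a l * (Γ *ᵥ v) l = _
  refine Finset.sum_congr rfl (fun l _ => ?_)
  show toR (f l.succ) a * ((toR (g l.succ) - toR (g 0)) ⬝ᵥ v) = _
  rw [Pi.smul_apply, smul_eq_mul, mul_comm]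

theorem dot_pot {d : ℕ} (f g : Fin (d + 1) → Fin d → ℤ) (hs : Superb f g) (i j l : Fin (d + 1)) :
    (toR (g i) - toR (g j)) ⬝ᵥ toR (f l) = (if i = l then (1:ℝ) else 0) - (if j = l then 1 else 0) := by
  have h := hs.2 i j l
  have h' : (((g i - g j) ⬝ᵥ f l : ℤ) : ℝ) =
      (((if i = l then (1:ℤ) else 0) - (if j = l then 1 else 0) : ℤ) : ℝ) := by rw [h]
  have h1 : (((g i - g j) ⬝ᵥ f l : ℤ) : ℝ) = (toR (g i) - toR (g j)) ⬝ᵥ toR (f l) := by
    simp only [dotProduct, toR, Pi.sub_apply]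
    push_cast
    rfl
  rw [← h1, h']
  push_cast
  rfl

theorem symm_form {d : ℕ} (G : Matrix (Fin d) (Fin d) ℝ) (hG : G.PosDef) (u v : Fin d → ℝ) :
    u ⬝ᵥ G *ᵥ v = v ⬝ᵥ G *ᵥ u := by
  have ht : Gᵀ = G := by
    have := hG.1.eq
    simpa using this
  rw [dotProduct_mulVec, ← mulVec_transpose, ht, dotProduct_comm]

/-- The form of a combination of the superbase. -/
theorem form_comb {d : ℕ} (G : Matrix (Fin d) (Fin d) ℝ) (f : Fin (d + 1) → Fin d → ℤ)
    (x y : Fin (d + 1) → ℝ) :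
    (∑ i, x i • toR (f i)) ⬝ᵥ G *ᵥ (∑ j, y j • toR (f j)) =
      ∑ i, ∑ j, (toR (f i) ⬝ᵥ G *ᵥ toR (f j)) * (x i * y j) := by
  rw [sum_dotProduct]
  refine Finset.sum_congr rfl fun i _ => ?_
  rw [Matrix.mulVec_sum, dotProduct_sum]
  refine Finset.sum_congr rfl fun j _ => ?_
  rw [Matrix.mulVec_smul, smul_dotProduct, dotProduct_smul, smul_eq_mul, smul_eq_mul]
  ring

theorem sum_toR {d : ℕ} (f g : Fin (d + 1) → Fin d → ℤ) (hs : Superb f g) : ∑ j, toR (f j) = 0 := by
  funext k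
  have := congrFun hs.1 k
  simp only [Finset.sum_apply, Pi.zero_apply, toR] at this ⊢
  exact_mod_cast this

theorem row_zero {d : ℕ} (G : Matrix (Fin d) (Fin d) ℝ) (f g : Fin (d + 1) → Fin d → ℤ) (hs : Superb f g)
    (i : Fin (d + 1)) : ∑ j, toR (f i) ⬝ᵥ G *ᵥ toR (f j) = 0 := by
  rw [← dotProduct_sum, ← Matrix.mulVec_sum, sum_toR f g hs]
  simp

/-- The form in the differences of the coefficients. -/
theorem form_diff {d : ℕ} (G : Matrix (Fin d) (Fin d) ℝ) (hG : G.PosDef) (f g : Fin (d + 1) → Fin d → ℤ)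
    (hs : Superb f g) (x y : Fin (d + 1) → ℝ) :
    (∑ i, x i • toR (f i)) ⬝ᵥ G *ᵥ (∑ j, y j • toR (f j)) =
      ∑ i, ∑ j, (-(toR (f i) ⬝ᵥ G *ᵥ toR (f j)) / 2) * ((x i - x j) * (y i - y j)) := by
  rw [form_comb G f x y]
  exact laplace (fun i j => toR (f i) ⬝ᵥ G *ᵥ toR (f j)) (fun i => row_zero G f g hs i)
    (fun i j => symm_form G hG _ _) x y

theorem swap4 {ι κ : Type*} [Fintype ι] [Fintype κ] (T : ι → ι → κ → κ → ℝ) :
    ∑ i, ∑ j, ∑ p, ∑ q, T i j p q = ∑ p, ∑ q, ∑ i, ∑ j, T i j p q := by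
  calc ∑ i, ∑ j, ∑ p, ∑ q, T i j p q = ∑ i, ∑ p, ∑ j, ∑ q, T i j p q :=
        Finset.sum_congr rfl fun i _ => Finset.sum_comm
    _ = ∑ p, ∑ i, ∑ j, ∑ q, T i j p q := Finset.sum_comm
    _ = ∑ p, ∑ i, ∑ q, ∑ j, T i j p q :=
        Finset.sum_congr rfl fun p _ => Finset.sum_congr rfl fun i _ => Finset.sum_comm
    _ = ∑ p, ∑ q, ∑ i, ∑ j, T i j p q := Finset.sum_congr rfl fun p _ => Finset.sum_comm

/-- Foster's identity: the trace of `G M = 1`. -/
theorem foster {d : ℕ} (G M : Matrix (Fin d) (Fin d) ℝ) (hG : G.PosDef) (hGM : G * M = 1)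
    (f g : Fin (d + 1) → Fin d → ℤ) (hs : Superb f g) :
    ∑ i, ∑ j, (-(toR (f i) ⬝ᵥ G *ᵥ toR (f j)) / 2) *
      ((toR (g i) - toR (g j)) ⬝ᵥ M *ᵥ (toR (g i) - toR (g j))) = d := by
  have hent : ∀ p q : Fin d, G p q = ∑ i, ∑ j, (-(toR (f i) ⬝ᵥ G *ᵥ toR (f j)) / 2) *
      ((toR (g i) p - toR (g j) p) * (toR (g i) q - toR (g j) q)) := by
    intro p q
    have h2 : (Pi.single p (1 : ℝ)) ⬝ᵥ G *ᵥ (Pi.single q 1) = G p q := by
      rw [single_dotProduct, Matrix.mulVec_single_one]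
      simp
    rw [← h2]
    conv_lhs => rw [decomp f g hs (Pi.single p (1 : ℝ)), decomp f g hs (Pi.single q (1 : ℝ))]
    rw [form_diff G hG f g hs]
    refine Finset.sum_congr rfl fun i _ => Finset.sum_congr rfl fun j _ => ?_
    rw [dotProduct_single, dotProduct_single, dotProduct_single, dotProduct_single]
    simp only [Pi.sub_apply, mul_one]
    ring
  have htr : ∑ p, ∑ q, G p q * M q p = d := by
    have : (G * M).trace = d := by rw [hGM]; simp
    rw [← this]
    simp [Matrix.trace, Matrix.mul_apply]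
  have hex : ∀ i j, ((toR (g i) - toR (g j)) ⬝ᵥ M *ᵥ (toR (g i) - toR (g j))) =
      ∑ p, ∑ q, ((toR (g i) p - toR (g j) p) * (toR (g i) q - toR (g j) q)) * M q p := by
    intro i j
    simp only [dotProduct, Matrix.mulVec, Pi.sub_apply, Finset.mul_sum]
    rw [Finset.sum_comm]
    refine Finset.sum_congr rfl fun p _ => Finset.sum_congr rfl fun q _ => ?_
    ring
  rw [← htr]
  have e1 : ∀ p q, G p q * M q p = ∑ i, ∑ j, (-(toR (f i) ⬝ᵥ G *ᵥ toR (f j)) / 2) *
      (((toR (g i) p - toR (g j) p) * (toR (g i) q - toR (g j) q)) * M q p) := by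
    intro p q
    rw [hent p q, Finset.sum_mul]
    refine Finset.sum_congr rfl fun i _ => ?_
    rw [Finset.sum_mul]
    refine Finset.sum_congr rfl fun j _ => ?_
    ring
  have e2 : ∀ i j, (-(toR (f i) ⬝ᵥ G *ᵥ toR (f j)) / 2) *
      ((toR (g i) - toR (g j)) ⬝ᵥ M *ᵥ (toR (g i) - toR (g j))) =
      ∑ p, ∑ q, (-(toR (f i) ⬝ᵥ G *ᵥ toR (f j)) / 2) *
      (((toR (g i) p - toR (g j) p) * (toR (g i) q - toR (g j) q)) * M q p) := by
    intro i j
    rw [hex i j, Finset.mul_sum]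
    refine Finset.sum_congr rfl fun p _ => ?_
    rw [Finset.mul_sum]
  rw [Finset.sum_congr rfl fun i _ => Finset.sum_congr rfl fun j _ => e2 i j]
  rw [Finset.sum_congr rfl fun p _ => Finset.sum_congr rfl fun q _ => e1 p q]
  exact swap4 _

/-- The form of a partial sum of the superbase is a cut. -/
theorem form_cut {d : ℕ} (G : Matrix (Fin d) (Fin d) ℝ) (hG : G.PosDef) (f g : Fin (d + 1) → Fin d → ℤ)
    (hs : Superb f g) (S : Finset (Fin (d + 1))) :
    (∑ i, ind S i • toR (f i)) ⬝ᵥ G *ᵥ (∑ j, ind S j • toR (f j)) =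
      ∑ i, ∑ j, (-(toR (f i) ⬝ᵥ G *ᵥ toR (f j)) / 2) * |ind S i - ind S j| := by
  rw [form_diff G hG f g hs]
  refine Finset.sum_congr rfl fun i _ => Finset.sum_congr rfl fun j _ => ?_
  congr 1
  unfold ind
  by_cases hi : i ∈ S <;> by_cases hj : j ∈ S <;> simp [hi, hj]

/-- The partial sums are lattice vectors. -/
theorem ind_sum {d : ℕ} (f : Fin (d + 1) → Fin d → ℤ) (S : Finset (Fin (d + 1))) :
    ∑ i, ind S i • toR (f i) = toR (∑ i ∈ S, f i) := by
  funext k
  simp only [Finset.sum_apply, Pi.smul_apply, smul_eq_mul, toR, ind]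
  push_cast
  rw [← Finset.sum_filter_add_sum_filter_not univ (fun i => i ∈ S)]
  have h1 : ∑ i ∈ univ.filter (fun i => ¬ i ∈ S), (if i ∈ S then (1:ℝ) else 0) * (f i k : ℝ) = 0 := by
    refine Finset.sum_eq_zero fun i hi => ?_
    rw [Finset.mem_filter] at hi
    simp [hi.2]
  rw [h1, add_zero]
  have h2 : univ.filter (fun i => i ∈ S) = S := by ext i; simp
  rw [h2]
  refine Finset.sum_congr rfl fun i hi => ?_
  simp [hi]

/-- A closest lattice point exists. -/
theorem exists_closest {d : ℕ} (G M : Matrix (Fin d) (Fin d) ℝ) (hG : G.PosDef) (hGM : G * M = 1)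
    (c : Fin d → ℝ) : ∃ z : Fin d → ℤ, ∀ z' : Fin d → ℤ,
      (c - toR z) ⬝ᵥ G *ᵥ (c - toR z) ≤ (c - toR z') ⬝ᵥ G *ᵥ (c - toR z') := by
  -- coordinates are bounded by the form
  have hM : ∀ i, 0 < M i i := by
    intro i
    have h1 : G *ᵥ (M *ᵥ Pi.single i 1) = Pi.single i 1 := by
      rw [Matrix.mulVec_mulVec, hGM, Matrix.one_mulVec]
    have h2 : M *ᵥ Pi.single i 1 ≠ 0 := by
      intro h
      rw [h, Matrix.mulVec_zero] at h1
      have := congrFun h1 i
      simp at this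
    have h3 := hG.dotProduct_mulVec_pos h2
    rw [h1] at h3
    simpa using h3
  have hb : ∀ (v : Fin d → ℝ) (i : Fin d), v i ^ 2 ≤ M i i * (v ⬝ᵥ G *ᵥ v) := by
    intro v i
    have h1 : G *ᵥ (M *ᵥ Pi.single i 1) = Pi.single i 1 := by
      rw [Matrix.mulVec_mulVec, hGM, Matrix.one_mulVec]
    set w : Fin d → ℝ := M *ᵥ Pi.single i 1 with hw
    have hwi : w i = M i i := by
      rw [hw, Matrix.mulVec_single_one]; rfl
    have h2 : 0 ≤ (v - (v i / M i i) • w) ⬝ᵥ G *ᵥ (v - (v i / M i i) • w) := by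
      have := hG.posSemidef.dotProduct_mulVec_nonneg (v - (v i / M i i) • w)
      simpa using this
    have h3 : (v - (v i / M i i) • w) ⬝ᵥ G *ᵥ (v - (v i / M i i) • w) =
        v ⬝ᵥ G *ᵥ v - 2 * (v i / M i i) * v i + (v i / M i i) ^ 2 * M i i := by
      have h4 : w ⬝ᵥ G *ᵥ v = v i := by
        rw [symm_form G hG w v, h1]; simp
      have h5 : v ⬝ᵥ G *ᵥ w = v i := by
        rw [h1]; simp
      have h6 : w ⬝ᵥ G *ᵥ w = M i i := by
        rw [h1]; simp [hwi]
      rw [Matrix.mulVec_sub, Matrix.mulVec_smul, sub_dotProduct, dotProduct_sub, dotProduct_sub,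
        smul_dotProduct, smul_dotProduct, dotProduct_smul, dotProduct_smul, h4, h5, h6]
      simp only [smul_eq_mul]
      ring
    rw [h3] at h2
    have h7 : v ⬝ᵥ G *ᵥ v - 2 * (v i / M i i) * v i + (v i / M i i) ^ 2 * M i i =
        v ⬝ᵥ G *ᵥ v - v i ^ 2 / M i i := by
      field_simp [(hM i).ne']
      ring
    rw [h7] at h2
    have h8 : v i ^ 2 / M i i ≤ v ⬝ᵥ G *ᵥ v := by linarith
    rw [div_le_iff₀ (hM i)] at h8
    linarith
  set R : ℝ := (c - toR 0) ⬝ᵥ G *ᵥ (c - toR 0) with hR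
  have hfin : {z : Fin d → ℤ | (c - toR z) ⬝ᵥ G *ᵥ (c - toR z) ≤ R}.Finite := by
    refine Set.Finite.subset (Set.finite_Icc (fun i => ⌊c i - (M i i * R + 1)⌋) (fun i => ⌈c i + (M i i * R + 1)⌉)) ?_
    intro z hz
    have hz' : (c - toR z) ⬝ᵥ G *ᵥ (c - toR z) ≤ R := hz
    have habs : ∀ i, |c i - z i| ≤ M i i * R + 1 := by
      intro i
      have h1 := hb (c - toR z) i
      have h2 : M i i * ((c - toR z) ⬝ᵥ G *ᵥ (c - toR z)) ≤ M i i * R := mul_le_mul_of_nonneg_left hz' (hM i).le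
      have h3 : (c i - z i) ^ 2 ≤ M i i * R := le_trans h1 h2
      have h4 : 0 ≤ M i i * R := le_trans (sq_nonneg _) h3
      apply abs_le_of_sq_le_sq _ (by linarith)
      nlinarith
    rw [Set.mem_Icc]
    constructor
    · intro i
      have h1 := abs_le.1 (habs i)
      have h2 : (⌊c i - (M i i * R + 1)⌋ : ℝ) ≤ z i := le_trans (Int.floor_le _) (by linarith [h1.2])
      exact_mod_cast h2
    · intro i
      have h1 := abs_le.1 (habs i)
      have h2 : (z i : ℝ) ≤ ⌈c i + (M i i * R + 1)⌉ := le_trans (by linarith [h1.1]) (Int.le_ceil _)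
      exact_mod_cast h2
  obtain ⟨z, hz, hmin⟩ := Set.exists_min_image _ (fun z : Fin d → ℤ => (c - toR z) ⬝ᵥ G *ᵥ (c - toR z)) hfin
    ⟨0, (le_refl R : (c - toR 0) ⬝ᵥ G *ᵥ (c - toR 0) ≤ R)⟩
  refine ⟨z, fun z' => ?_⟩
  by_cases h : (c - toR z') ⬝ᵥ G *ᵥ (c - toR z') ≤ R
  · exact hmin z' h
  · exact le_trans hz (not_le.1 h).le

/-- **Covering radius**: some lattice point has squared distance at most a quarter of the total weight. -/
theorem cover {d : ℕ} (G M : Matrix (Fin d) (Fin d) ℝ) (hG : G.PosDef) (hGM : G * M = 1)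
    (f g : Fin (d + 1) → Fin d → ℤ) (hs : Superb f g)
    (hob : ∀ i j, i ≠ j → toR (f i) ⬝ᵥ G *ᵥ toR (f j) ≤ 0) (c : Fin d → ℝ) :
    ∃ z : Fin d → ℤ, (c - toR z) ⬝ᵥ G *ᵥ (c - toR z) ≤
      (∑ i, ∑ j, if i = j then 0 else (-(toR (f i) ⬝ᵥ G *ᵥ toR (f j)) / 2)) / 4 := by
  obtain ⟨z, hz⟩ := exists_closest G M hG hGM c
  refine ⟨z, ?_⟩
  obtain ⟨x, hx⟩ : ∃ x : Fin (d + 1) → ℝ, c - toR z = ∑ l, x l • toR (f l) :=
    ⟨_, decomp f g hs (c - toR z)⟩
  -- the closest vector inequality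
  have hcl : ∀ F : Fin d → ℤ, 2 * (toR F ⬝ᵥ G *ᵥ (c - toR z)) ≤ toR F ⬝ᵥ G *ᵥ toR F := by
    intro F
    have h1 := hz (z + F)
    have h2 : c - toR (z + F) = (c - toR z) - toR F := by
      funext k
      simp only [toR, Pi.sub_apply, Pi.add_apply]
      push_cast; ring
    generalize c - toR z = v at h1 h2 ⊢
    rw [h2, Matrix.mulVec_sub, sub_dotProduct, dotProduct_sub, dotProduct_sub,
      symm_form G hG v (toR F)] at h1
    linarith
  have hlay := layer' (fun i => 2 * (toR (f i) ⬝ᵥ G *ᵥ (c - toR z)))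
    (fun i j => -(toR (f i) ⬝ᵥ G *ᵥ toR (f j)) / 2) (by
      rw [← Finset.mul_sum, ← sum_dotProduct, sum_toR f g hs]; simp) (by
      intro S
      have h1 := hcl (∑ i ∈ S, f i)
      rw [← ind_sum f S] at h1
      have h2 := form_cut G hG f g hs S
      rw [h2] at h1
      have h3 : ∑ i, 2 * (toR (f i) ⬝ᵥ G *ᵥ (c - toR z)) * ind S i =
          2 * ((∑ i, ind S i • toR (f i)) ⬝ᵥ G *ᵥ (c - toR z)) := by
        rw [sum_dotProduct, Finset.mul_sum]
        refine Finset.sum_congr rfl fun i _ => ?_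
        rw [smul_dotProduct, smul_eq_mul]; ring
      rw [h3]; exact h1) x
  have h3 : ∑ i, 2 * (toR (f i) ⬝ᵥ G *ᵥ (c - toR z)) * x i = 2 * ((c - toR z) ⬝ᵥ G *ᵥ (c - toR z)) := by
    conv_rhs => rw [hx]
    rw [sum_dotProduct, Finset.mul_sum]
    refine Finset.sum_congr rfl fun i _ => ?_
    rw [smul_dotProduct, smul_eq_mul, ← hx]; ring
  rw [h3] at hlay
  have h4 : (c - toR z) ⬝ᵥ G *ᵥ (c - toR z) =
      ∑ i, ∑ j, (-(toR (f i) ⬝ᵥ G *ᵥ toR (f j)) / 2) * ((x i - x j) * (x i - x j)) := by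
    rw [hx]
    exact form_diff G hG f g hs x x
  have h5 : 2 * ((c - toR z) ⬝ᵥ G *ᵥ (c - toR z)) - (c - toR z) ⬝ᵥ G *ᵥ (c - toR z) ≤
      (∑ i, ∑ j, if i = j then 0 else (-(toR (f i) ⬝ᵥ G *ᵥ toR (f j)) / 2)) / 4 := by
    rw [Finset.sum_div]
    calc 2 * ((c - toR z) ⬝ᵥ G *ᵥ (c - toR z)) - (c - toR z) ⬝ᵥ G *ᵥ (c - toR z)
        ≤ (∑ i, ∑ j, (-(toR (f i) ⬝ᵥ G *ᵥ toR (f j)) / 2) * |x i - x j|) -
          ∑ i, ∑ j, (-(toR (f i) ⬝ᵥ G *ᵥ toR (f j)) / 2) * ((x i - x j) * (x i - x j)) := by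
            rw [← h4]; linarith
      _ = ∑ i, ∑ j, (-(toR (f i) ⬝ᵥ G *ᵥ toR (f j)) / 2) * (|x i - x j| - (x i - x j) * (x i - x j)) := by
            rw [← Finset.sum_sub_distrib]
            refine Finset.sum_congr rfl fun i _ => ?_
            rw [← Finset.sum_sub_distrib]
            refine Finset.sum_congr rfl fun j _ => ?_
            ring
      _ ≤ _ := by
            refine Finset.sum_le_sum fun i _ => ?_
            rw [Finset.sum_div]
            refine Finset.sum_le_sum fun j _ => ?_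
            by_cases hij : i = j
            · subst hij; simp
            · rw [if_neg hij]
              have h6 := hob i j hij
              have h7 : |x i - x j| - (x i - x j) * (x i - x j) ≤ 1 / 4 := by
                have h8 : (x i - x j) * (x i - x j) = |x i - x j| ^ 2 := by rw [sq_abs]; ring
                rw [h8]
                nlinarith [sq_nonneg (|x i - x j| - 1 / 2)]
              have h9 : 0 ≤ -(toR (f i) ⬝ᵥ G *ᵥ toR (f j)) / 2 := by linarith
              calc _ ≤ (-(toR (f i) ⬝ᵥ G *ᵥ toR (f j)) / 2) * (1 / 4) := mul_le_mul_of_nonneg_left h7 h9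
                _ = _ := by ring
  linarith

/-- **The product of the covering radius and the dual minimum** for an obtuse superbase: some nonzero dual
vector `u` works for all centres `c`. -/
theorem coreD {d : ℕ} (hd : 0 < d) (G M : Matrix (Fin d) (Fin d) ℝ) (hG : G.PosDef) (hGM : G * M = 1)
    (f g : Fin (d + 1) → Fin d → ℤ) (hs : Superb f g)
    (hob : ∀ i j, i ≠ j → toR (f i) ⬝ᵥ G *ᵥ toR (f j) ≤ 0) :
    ∃ u : Fin d → ℤ, u ≠ 0 ∧ ∀ c : Fin d → ℝ, ∃ z : Fin d → ℤ,
      ((c - toR z) ⬝ᵥ G *ᵥ (c - toR z)) * (toR u ⬝ᵥ M *ᵥ toR u) ≤ (d : ℝ) / 4 := by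
  have hne : (univ.filter (fun q : Fin (d + 1) × Fin (d + 1) => q.1 ≠ q.2)).Nonempty := by
    refine ⟨(⟨0, by omega⟩, ⟨1, by omega⟩), ?_⟩
    rw [Finset.mem_filter]
    refine ⟨Finset.mem_univ _, ?_⟩
    intro h
    have := congrArg Fin.val h
    simp at this
  obtain ⟨q, hq, hmin⟩ := Finset.exists_min_image _
    (fun q : Fin (d + 1) × Fin (d + 1) => (toR (g q.1) - toR (g q.2)) ⬝ᵥ M *ᵥ (toR (g q.1) - toR (g q.2))) hne
  rw [Finset.mem_filter] at hq
  have hu : toR (g q.1 - g q.2) = toR (g q.1) - toR (g q.2) := by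
    funext k
    simp [toR]
  refine ⟨g q.1 - g q.2, ?_, fun c => ?_⟩
  · intro h0
    have h1 := hs.2 q.1 q.2 q.1
    rw [h0, if_pos rfl, if_neg (fun h => hq.2 h.symm)] at h1
    simp at h1
  · obtain ⟨z, hz⟩ := cover G M hG hGM f g hs hob c
    refine ⟨z, ?_⟩
    rw [hu]
    set r : ℝ := (toR (g q.1) - toR (g q.2)) ⬝ᵥ M *ᵥ (toR (g q.1) - toR (g q.2)) with hr
    have hM : M = G⁻¹ := by
      rw [Matrix.inv_eq_right_inv hGM]
    have hr0 : 0 ≤ r := by
      have hMp : M.PosDef := by rw [hM]; exact hG.inv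
      have h5 := hMp.posSemidef.dotProduct_mulVec_nonneg (toR (g q.1) - toR (g q.2))
      rw [star_trivial] at h5
      exact h5
    have hfo := foster G M hG hGM f g hs
    have h1 : (∑ i, ∑ j, if i = j then 0 else (-(toR (f i) ⬝ᵥ G *ᵥ toR (f j)) / 2)) * r ≤ d := by
      rw [← hfo, Finset.sum_mul]
      refine Finset.sum_le_sum fun i _ => ?_
      rw [Finset.sum_mul]
      refine Finset.sum_le_sum fun j _ => ?_
      by_cases hij : i = j
      · subst hij; simp
      · rw [if_neg hij]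
        have h9 : 0 ≤ -(toR (f i) ⬝ᵥ G *ᵥ toR (f j)) / 2 := by
          have := hob i j hij; linarith
        refine mul_le_mul_of_nonneg_left ?_ h9
        exact hmin (i, j) (by rw [Finset.mem_filter]; exact ⟨Finset.mem_univ _, hij⟩)
    calc ((c - toR z) ⬝ᵥ G *ᵥ (c - toR z)) * r
        ≤ ((∑ i, ∑ j, if i = j then 0 else (-(toR (f i) ⬝ᵥ G *ᵥ toR (f j)) / 2)) / 4) * r :=
          mul_le_mul_of_nonneg_right hz hr0
      _ = ((∑ i, ∑ j, if i = j then 0 else (-(toR (f i) ⬝ᵥ G *ᵥ toR (f j)) / 2)) * r) / 4 := by ring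
      _ ≤ (d : ℝ) / 4 := by linarith

end Pool.Agent.Helper28.Sym
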