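import Mathlib
import Pool.Agent.Helper28.Sym.CoreD

/-! (S), dimension `d`: lattices of Voronoi's first kind. -/

set_option autoImplicit false

namespace Pool.Agent.Helper28.Sym

open Matrix Finset

/-- the standard superbase of `ℤ^d` -/
def stdF (d : ℕ) : Fin (d + 1) → Fin d → ℤ := Fin.cons (fun _ => -1) (fun i => Pi.single i 1)

/-- its potentials -/
def stdG (d : ℕ) : Fin (d + 1) → Fin d → ℤ := Fin.cons 0 (fun i => Pi.single i 1)

theorem std_superb (d : ℕ) : Superb (stdF d) (stdG d) := by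
  constructor
  · rw [Fin.sum_univ_succ]
    funext k
    simp only [stdF, Fin.cons_zero, Fin.cons_succ, Pi.add_apply, Finset.sum_apply, Pi.zero_apply]
    have : ∑ i : Fin d, (Pi.single i (1:ℤ) : Fin d → ℤ) k = 1 := by
      rw [Finset.sum_eq_single k]
      · simp
      · intro b _ hb
        rw [Pi.single_eq_of_ne (Ne.symm hb)]
      · intro h; exact absurd (Finset.mem_univ k) h
    rw [this]; norm_num
  · have h : ∀ i l : Fin (d + 1), stdG d i ⬝ᵥ stdF d l =
        (if i = l then 1 else 0) - (if (0 : Fin (d + 1)) = l then 1 else 0) := by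
      intro i l
      refine Fin.cases ?_ (fun a => ?_) i
      · simp only [stdG, Fin.cons_zero, zero_dotProduct, sub_self]
      · refine Fin.cases ?_ (fun b => ?_) l
        · simp only [stdG, stdF, Fin.cons_zero, Fin.cons_succ, single_dotProduct]
          rw [if_neg (Fin.succ_ne_zero a)]
          norm_num
        · simp only [stdG, stdF, Fin.cons_succ, single_dotProduct]
          rw [if_neg (Fin.succ_ne_zero b).symm, one_mul, Pi.single_apply]
          by_cases hab : a = b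
          · subst hab; simp
          · have : a.succ ≠ b.succ := fun h => hab (Fin.succ_injective _ h)
            simp [hab, this]
    intro i j l
    rw [sub_dotProduct, h i l, h j l]
    ring

/-- **Lattices of Voronoi's first kind.** If the basis `a` of a lattice `L` in `ℝ^d` has `a i · a j ≤ 0` for `i ≠ j`
and `a i · (∑ j, a j) ≥ 0` for all `i`, then some nonzero vector `w` of the dual lattice satisfies
`dist (c, L)^2 * |w|^2 ≤ d / 4` for all `c`, that is `μ(L) λ₁(L*) ≤ √d / 2`. -/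
theorem first_kind {d : ℕ} (hd : 0 < d) (a : Fin d → Fin d → ℝ) (ha : LinearIndependent ℝ a)
    (hob : ∀ i j, i ≠ j → a i ⬝ᵥ a j ≤ 0) (hob0 : ∀ i, 0 ≤ a i ⬝ᵥ ∑ j, a j) :
    ∃ w : Fin d → ℝ, w ≠ 0 ∧ (∀ i, ∃ k : ℤ, w ⬝ᵥ a i = k) ∧
      ∀ c : Fin d → ℝ, ∃ z : Fin d → ℤ,
        ((c - ∑ i, (z i : ℝ) • a i) ⬝ᵥ (c - ∑ i, (z i : ℝ) • a i)) * (w ⬝ᵥ w) ≤ (d : ℝ) / 4 := by
  let A : Matrix (Fin d) (Fin d) ℝ := Matrix.of a
  have hA : IsUnit A := by
    rw [Matrix.linearIndependent_rows_iff_isUnit.symm]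
    exact ha
  have hdet : IsUnit A.det := (Matrix.isUnit_iff_isUnit_det A).1 hA
  have h1 : A * A⁻¹ = 1 := Matrix.mul_nonsing_inv A hdet
  have h2 : A⁻¹ * A = 1 := Matrix.nonsing_inv_mul A hdet
  have hform : ∀ u v : Fin d → ℝ, u ⬝ᵥ (A * Aᵀ) *ᵥ v = (Aᵀ *ᵥ u) ⬝ᵥ (Aᵀ *ᵥ v) := by
    intro u v
    rw [← Matrix.mulVec_mulVec, dotProduct_mulVec, ← Matrix.mulVec_transpose A u]
  have hG : (A * Aᵀ).PosDef := by
    have h3 : Aᴴ = Aᵀ := Matrix.conjTranspose_eq_transpose_of_trivial A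
    rw [← h3]
    apply Matrix.PosDef.mul_conjTranspose_self
    exact Matrix.vecMul_injective_iff_isUnit.2 hA
  have hGM : (A * Aᵀ) * ((A⁻¹)ᵀ * A⁻¹) = 1 := by
    rw [Matrix.mul_assoc, ← Matrix.mul_assoc Aᵀ, ← Matrix.transpose_mul, h2, Matrix.transpose_one,
      Matrix.one_mul, h1]
  have hrow : ∀ y : Fin d → ℝ, Aᵀ *ᵥ y = ∑ i, y i • a i := by
    intro y
    funext k
    rw [Matrix.mulVec_transpose, Finset.sum_apply]
    simp only [Matrix.vecMul, dotProduct, Pi.smul_apply, smul_eq_mul]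
    rfl
  have hF0 : Aᵀ *ᵥ toR (stdF d 0) = - ∑ j, a j := by
    rw [hrow]
    simp [stdF, toR]
  have hFs : ∀ i : Fin d, Aᵀ *ᵥ toR (stdF d i.succ) = a i := by
    intro i
    rw [hrow]
    rw [Finset.sum_eq_single i]
    · simp [stdF, toR]
    · intro b _ hb
      simp [stdF, toR, Pi.single_eq_of_ne hb]
    · intro h; exact absurd (Finset.mem_univ i) h
  have hobt : ∀ i j, i ≠ j → toR (stdF d i) ⬝ᵥ (A * Aᵀ) *ᵥ toR (stdF d j) ≤ 0 := by
    intro i j
    rw [hform]
    refine Fin.cases ?_ (fun i' => ?_) i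
    · refine Fin.cases ?_ (fun j' => ?_) j
      · intro h; exact absurd rfl h
      · intro _
        rw [hF0, hFs, neg_dotProduct, dotProduct_comm]
        linarith [hob0 j']
    · refine Fin.cases ?_ (fun j' => ?_) j
      · intro _
        rw [hF0, hFs, dotProduct_neg]
        linarith [hob0 i']
      · intro h
        rw [hFs, hFs]
        exact hob i' j' (fun h' => h (by rw [h']))
  obtain ⟨u, hu0, hu⟩ := coreD hd (A * Aᵀ) ((A⁻¹)ᵀ * A⁻¹) hG hGM (stdF d) (stdG d) (std_superb d) hobt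
  have hAw : A *ᵥ (A⁻¹ *ᵥ toR u) = toR u := by
    rw [Matrix.mulVec_mulVec, h1, Matrix.one_mulVec]
  refine ⟨A⁻¹ *ᵥ toR u, ?_, ?_, ?_⟩
  · intro h
    rw [h, Matrix.mulVec_zero] at hAw
    apply hu0
    funext i
    have := congrFun hAw i
    simp only [Pi.zero_apply, toR] at this
    exact_mod_cast this.symm
  · intro i
    refine ⟨u i, ?_⟩
    have := congrFun hAw i
    rw [dotProduct_comm]
    exact this
  · intro c
    obtain ⟨z, hz⟩ := hu ((A⁻¹)ᵀ *ᵥ c)
    refine ⟨z, ?_⟩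
    have h3 : Aᵀ *ᵥ ((A⁻¹)ᵀ *ᵥ c - toR z) = c - ∑ i, (z i : ℝ) • a i := by
      rw [Matrix.mulVec_sub, Matrix.mulVec_mulVec, ← Matrix.transpose_mul, h2, Matrix.transpose_one,
        Matrix.one_mulVec, hrow]
      rfl
    rw [hform, h3] at hz
    have h4 : toR u ⬝ᵥ ((A⁻¹)ᵀ * A⁻¹) *ᵥ toR u = (A⁻¹ *ᵥ toR u) ⬝ᵥ (A⁻¹ *ᵥ toR u) := by
      rw [← Matrix.mulVec_mulVec, dotProduct_mulVec, Matrix.vecMul_transpose]
    rw [h4] at hz
    exact hz

end Pool.Agent.Helper28.Sym
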